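import Pool.Agent.R325.Moufang.Defs

namespace Pool.Agent.R325.Moufang

universe u v

/-- Internal working class: Moufang loop with an inverse operation. -/
class MLoop (Q : Type u) extends Mul Q, One Q, Inv Q where
  one_mul' : ∀ x : Q, 1 * x = x
  mul_one' : ∀ x : Q, x * 1 = x
  lip : ∀ x z : Q, x⁻¹ * (x * z) = z
  lip' : ∀ x z : Q, x * (x⁻¹ * z) = z
  rip : ∀ x z : Q, (z * x) * x⁻¹ = z
  rip' : ∀ x z : Q, (z * x⁻¹) * x = z
  m1 : ∀ x y z : Q, x * (y * (x * z)) = ((x * y) * x) * z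

namespace MLoop

variable {Q : Type u} [MLoop Q]

theorem lc {x a b : Q} (h : x * a = x * b) : a = b := by
  rw [← lip x a, h, lip]

theorem rc {x a b : Q} (h : a * x = b * x) : a = b := by
  rw [← rip x a, h, rip]

theorem inv_mul_self' (x : Q) : x⁻¹ * x = 1 := by
  have := lip x (1 : Q); rwa [mul_one'] at this

theorem mul_inv_self' (x : Q) : x * x⁻¹ = 1 := by
  have := lip' x (1 : Q); rwa [mul_one'] at this

theorem inv_inv' (x : Q) : (x⁻¹)⁻¹ = x := by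
  apply lc (x := x⁻¹); rw [mul_inv_self', inv_mul_self']

theorem inv_mul_rev (x y : Q) : (x * y)⁻¹ = y⁻¹ * x⁻¹ := by
  have h1 : (x * y)⁻¹ * x = y⁻¹ := by
    have := lip (x * y) y⁻¹
    rwa [rip] at this
  rw [← h1, rip]

theorem inv_one' : (1 : Q)⁻¹ = 1 := by
  have := inv_mul_self' (1 : Q); rwa [mul_one'] at this

theorem flex (x y : Q) : (x * y) * x = x * (y * x) := by
  have := m1 x y (1 : Q); rw [mul_one', mul_one'] at this; exact this.symm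

theorem m2 (x y z : Q) : ((z * x) * y) * x = z * (x * (y * x)) := by
  have h := congrArg (fun t => t⁻¹) (m1 x⁻¹ y⁻¹ z⁻¹)
  simpa only [inv_mul_rev, inv_inv'] using h

theorem m3 (x y z : Q) : (x * y) * (z * x) = x * ((y * z) * x) := by
  apply lc (x := x⁻¹)
  rw [lip]
  have h := m1 x⁻¹ (x * y) (x * (z * x))
  rw [lip, lip] at h
  rw [h]
  have h2 := m2 x z (y * x⁻¹)
  rw [rip'] at h2
  exact h2.symm

theorem lalt (x y : Q) : (x * x) * y = x * (x * y) := by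
  have := m1 x 1 y; rw [one_mul', mul_one'] at this; exact this.symm

theorem ralt (x y : Q) : (y * x) * x = y * (x * x) := by
  have := m2 x 1 y; rwa [one_mul', mul_one'] at this

theorem conj_assoc (x y : Q) : (x⁻¹ * y) * x = x⁻¹ * (y * x) := by
  apply lc (x := x)
  rw [lip', ← m3, mul_inv_self', one_mul']

theorem conj_assoc' (x y : Q) : (x * y) * x⁻¹ = x * (y * x⁻¹) := by
  have := conj_assoc x⁻¹ y
  rwa [inv_inv'] at this

theorem pa (x y z : Q) :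
    (x * (y * x⁻¹)) * ((x * (z * x)) * x) = x * (((y * z) * x) * x) := by
  rw [m3 x (y * x⁻¹) (x * (z * x)), ← m2 x z (y * x⁻¹), rip']

theorem star_id (x w : Q) :
    (x * (w * x)) * x = (x * (w * x⁻¹)) * ((x * x) * x) := by
  have h := pa x w 1
  rw [one_mul', mul_one'] at h
  rw [h, flex]

theorem cube (x y k1 k2 : Q) (h : y * k1 = k2 * y) :
    (x * (y * x⁻¹)) * ((x * (k1 * x⁻¹)) * ((x * x) * x)) =
      (x * (k2 * x⁻¹)) * ((x * (y * x⁻¹)) * ((x * x) * x)) := by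
  rw [← star_id, ← star_id, pa, pa, h]

/-- the key identity `G1`. -/
theorem g1 (Z Y k : Q) : Z * ((Z * Y)⁻¹ * (Z * (Y * k))) = (Z * Y⁻¹) * (Y * k) := by
  rw [m1, inv_mul_rev, ← conj_assoc', rip']

theorem inv_id (Y Z k : Q) (w : Q) (h : Y * (Z * k) = (Y * Z) * w) :
    Y * (Z * k⁻¹) = (Y * Z) * w⁻¹ := by
  have h1 : Z * k⁻¹ = Z * ((Z * k)⁻¹ * Z) := by
    rw [inv_mul_rev, rip']
  rw [h1, ← m2]
  have h2 : Z = Y⁻¹ * (Y * Z) := (lip Y Z).symm
  calc ((Y * Z) * (Z * k)⁻¹) * Z = ((Y * Z) * (Z * k)⁻¹) * (Y⁻¹ * (Y * Z)) := by rw [lip]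
    _ = (Y * Z) * (((Z * k)⁻¹ * Y⁻¹) * (Y * Z)) := by rw [m3]
    _ = (Y * Z) * ((Y * (Z * k))⁻¹ * (Y * Z)) := by rw [← inv_mul_rev]
    _ = (Y * Z) * (((Y * Z) * w)⁻¹ * (Y * Z)) := by rw [h]
    _ = (Y * Z) * w⁻¹ := by rw [inv_mul_rev (Y * Z) w, rip']

end MLoop

open MLoop

section Half

variable {Q : Type u} [MLoop Q] {Q' : Type v} [Mul Q'] [One Q'] {φ : Q → Q'}

/-- hypotheses bundled -/
structure HH (Q : Type u) [MLoop Q] (Q' : Type v) [Mul Q'] [One Q'] (φ : Q → Q') : Prop where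
  loop : IsLoop Q'
  half : IsHalfHom φ

namespace HH

variable (H : HH Q Q' φ)
include H

theorem lc' {x a b : Q'} (h : x * a = x * b) : a = b :=
  (H.loop.left_div x (x * b)).unique h rfl

theorem rc' {x a b : Q'} (h : a * x = b * x) : a = b :=
  (H.loop.right_div x (b * x)).unique h rfl

theorem map_one : φ 1 = 1 := by
  have h : φ 1 = φ 1 * φ 1 := by
    have := H.half 1 1
    rw [one_mul'] at this
    exact this.elim id id
  have h2 : φ 1 * φ 1 = φ 1 * 1 := by rw [H.loop.mul_one]; exact h.symm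
  exact H.lc' h2

theorem kmul {k : Q} (hk : φ k = 1) (x : Q) : φ (k * x) = φ x := by
  rcases H.half k x with h | h
  · rw [h, hk, H.loop.one_mul]
  · rw [h, hk, H.loop.mul_one]

theorem mulk {k : Q} (hk : φ k = 1) (x : Q) : φ (x * k) = φ x := by
  rcases H.half x k with h | h
  · rw [h, hk, H.loop.mul_one]
  · rw [h, hk, H.loop.one_mul]

theorem ld {a b : Q} (h : φ (a * b) = φ a) : φ b = 1 := by
  rcases H.half a b with h' | h'
  · rw [h] at h'
    apply H.lc' (x := φ a)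
    rw [H.loop.mul_one]; exact h'.symm
  · rw [h] at h'
    apply H.rc' (x := φ a)
    rw [H.loop.one_mul]; exact h'.symm

theorem rd {a b : Q} (h : φ (a * b) = φ b) : φ a = 1 := by
  rcases H.half a b with h' | h'
  · rw [h] at h'
    apply H.rc' (x := φ b)
    rw [H.loop.one_mul]; exact h'.symm
  · rw [h] at h'
    apply H.lc' (x := φ b)
    rw [H.loop.mul_one]; exact h'.symm

theorem inv_mem {k : Q} (hk : φ k = 1) : φ k⁻¹ = 1 := by
  have := H.kmul hk k⁻¹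
  rw [mul_inv_self', H.map_one] at this
  exact this.symm

/-- `x⁻¹ (k x) ∈ K`. -/
theorem cj1 {k : Q} (hk : φ k = 1) (x : Q) : φ (x⁻¹ * (k * x)) = 1 := by
  apply H.ld (a := x)
  rw [lip', H.kmul hk]

theorem cj2 {k : Q} (hk : φ k = 1) (x : Q) : φ ((x * k) * x⁻¹) = 1 := by
  apply H.rd (b := x)
  rw [rip', H.mulk hk]

theorem cj3 {k : Q} (hk : φ k = 1) (x : Q) : φ (x * (k * x⁻¹)) = 1 := by
  rw [← conj_assoc']; exact H.cj2 hk x

theorem cj4 {k : Q} (hk : φ k = 1) (x : Q) : φ ((x⁻¹ * k) * x) = 1 := by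
  rw [conj_assoc]; exact H.cj1 hk x

/-- CUBE, forward. -/
theorem cube_fwd (x u : Q) {k0 : Q} (hk : φ k0 = 1) :
    ∃ k3 : Q, φ k3 = 1 ∧ u * (k0 * ((x * x) * x)) = k3 * (u * ((x * x) * x)) := by
  set y := (x⁻¹ * u) * x with hy
  set k1 := (x⁻¹ * k0) * x with hk1
  have hk1' : φ k1 = 1 := H.cj4 hk x
  have e1 : x * (y * x⁻¹) = u := by rw [hy, rip, lip']
  have e2 : x * (k1 * x⁻¹) = k0 := by rw [hk1, rip, lip']
  refine ⟨x * (((y * k1) * y⁻¹) * x⁻¹), H.cj3 (H.cj2 hk1' y) x, ?_⟩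
  have h := cube x y k1 ((y * k1) * y⁻¹) (by rw [rip'])
  rw [e1, e2] at h
  exact h

/-- CUBE, backward. -/
theorem cube_bwd (x u : Q) {k3 : Q} (hk : φ k3 = 1) :
    ∃ k0 : Q, φ k0 = 1 ∧ u * (k0 * ((x * x) * x)) = k3 * (u * ((x * x) * x)) := by
  set y := (x⁻¹ * u) * x with hy
  set k2 := (x⁻¹ * k3) * x with hk2
  have hk2' : φ k2 = 1 := H.cj4 hk x
  have e1 : x * (y * x⁻¹) = u := by rw [hy, rip, lip']
  have e2 : x * (k2 * x⁻¹) = k3 := by rw [hk2, rip, lip']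
  refine ⟨x * ((y⁻¹ * (k2 * y)) * x⁻¹), H.cj3 (H.cj1 hk2' y) x, ?_⟩
  have h := cube x y (y⁻¹ * (k2 * y)) k2 (by rw [lip'])
  rw [e1, e2] at h
  exact h

/-- `N Y Z k`. -/
def N' (φ : Q → Q') (Y Z k : Q) : Prop := φ (Y * (Z * k)) = φ (Y * Z)

/-- `C Y Z k`. -/
def C' (φ : Q → Q') (Y Z k : Q) : Prop := φ ((Y * k) * Z) = φ (Y * Z)

omit H

theorem kp_iff (H : HH Q Q' φ) (Z Y k : Q) :
    N' φ Z Y k ↔ φ ((Z * Y)⁻¹ * (Z * (Y * k))) = 1 := by
  unfold N'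
  constructor
  · intro h
    apply H.ld (a := Z * Y)
    rw [lip', h]
  · intro h
    have := H.mulk h (Z * Y)
    rwa [lip'] at this

theorem bprime (H : HH Q Q' φ) (Y Z k : Q) : C' φ Y Z k ↔ N' φ Z Y k := by
  rw [H.kp_iff]
  set k' := (Z * Y)⁻¹ * (Z * (Y * k)) with hk'
  have hg : Z * k' = (Z * Y⁻¹) * (Y * k) := g1 Z Y k
  have hY : Y * k = (Y * Z⁻¹) * (Z * k') := by
    rw [hg]
    have : Y * Z⁻¹ = (Z * Y⁻¹)⁻¹ := by rw [inv_mul_rev, inv_inv']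
    rw [this, lip]
  set z := (Y * Z⁻¹) * Z⁻¹ with hz
  set w := (Z * k') * Z⁻¹ with hw
  set m := Z * (w * Z⁻¹) with hm
  have hzZ : z * Z = Y * Z⁻¹ := by rw [hz, rip']
  have e1 : (Y * k) * Z = z * (m * ((Z * Z) * Z)) := by
    have h1 : (Y * k) * Z = z * (Z * ((Z * k') * Z)) := by
      rw [hY, ← hzZ, m2]
    rw [h1, hm, ← star_id, hw, rip', ← flex Z (Z * k')]
  have e2 : Y * Z = z * ((Z * Z) * Z) := by
    rw [flex, ← m2, hzZ, rip']
  have hmk : φ m = 1 ↔ φ k' = 1 := by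
    constructor
    · intro h
      have hw1 : φ w = 1 := by
        have := H.cj4 h Z
        rwa [hm, lip, rip'] at this
      have := H.cj1 hw1 Z
      rwa [hw, rip', lip] at this
    · intro h
      exact H.cj3 (H.cj2 h Z) Z
  rw [← hmk]
  unfold C'
  rw [e1, e2]
  constructor
  · intro h
    have hk3 : φ ((z * (m * ((Z * Z) * Z))) * (z * ((Z * Z) * Z))⁻¹) = 1 := by
      apply H.rd (b := z * ((Z * Z) * Z))
      rw [rip', h]
    obtain ⟨k0, hk0, hk0e⟩ := H.cube_bwd Z z hk3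
    rw [rip'] at hk0e
    have := rc (lc hk0e)
    rw [← this]; exact hk0
  · intro h
    obtain ⟨k3, hk3, hk3e⟩ := H.cube_fwd Z z h
    rw [hk3e]
    exact H.kmul hk3 _

theorem ninv (H : HH Q Q' φ) (Y Z k : Q) : N' φ Y Z k ↔ N' φ Y Z k⁻¹ := by
  have key : ∀ k : Q, N' φ Y Z k → N' φ Y Z k⁻¹ := by
    intro k h
    rw [H.kp_iff] at h
    have e : Y * (Z * k) = (Y * Z) * ((Y * Z)⁻¹ * (Y * (Z * k))) := by rw [lip']
    have := inv_id Y Z k _ e
    unfold N'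
    rw [this]
    exact H.mulk (H.inv_mem h) _
  constructor
  · exact key k
  · intro h
    have := key _ h
    rwa [inv_inv'] at this

theorem kyz (H : HH Q Q' φ) {k : Q} (hk : φ k = 1) (Y Z : Q) :
    φ ((k * Y) * Z) = φ (Y * (Z * k⁻¹)) := by
  have : (k * Y) * Z = k * ((Y * (Z * k⁻¹)) * k) := by
    rw [← m3, rip']
  rw [this, H.kmul hk, H.mulk hk]

theorem cpp (H : HH Q Q' φ) {k : Q} (hk : φ k = 1) (Y Z : Q) :
    N' φ Y Z k ↔ N' φ Z Y (Y⁻¹ * (k * Y)) := by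
  rw [← H.bprime Y Z (Y⁻¹ * (k * Y)), H.ninv Y Z k]
  unfold C' N'
  rw [lip', H.kyz hk]

theorem hh (H : HH Q Q' φ) (Z Y k : Q) : N' φ (Z * Y) Y k ↔ N' φ Z Y k := by
  have key : ∀ Z : Q, N' φ (Z * Y⁻¹) Y k ↔ N' φ Z Y k := by
    intro Z
    rw [H.kp_iff Z Y k]
    unfold N'
    rw [← g1, rip']
    constructor
    · intro h; exact H.ld h
    · intro h; exact H.mulk h _
  have := key (Z * Y)
  rw [rip] at this
  exact this.symm

theorem e10 (H : HH Q Q' φ) {k : Q} (hk : φ k = 1) (Y Z : Q) :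
    N' φ Y (Z * Y) k ↔ N' φ Y Z k := by
  rw [H.cpp hk, H.hh, ← H.cpp hk]

theorem ee (H : HH Q Q' φ) {k : Q} (hk : φ k = 1) (Y Z : Q) :
    N' φ Y (Z * Z) k ↔ N' φ Y Z k := by
  set k1 := (Z * k) * Z⁻¹ with hk1
  have hk1' : φ k1 = 1 := H.cj2 hk Z
  have e : Z * k = k1 * Z := by rw [hk1, rip']
  have e2 : Z⁻¹ * (k1 * Z) = k := by rw [← e, lip]
  have s1 : N' φ Y (Z * Z) k ↔ C' φ (Y * Z) Z k1 := by
    unfold N' C'
    rw [lalt, e, ← m2, ralt Z Y]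
  rw [s1, H.bprime, H.e10 hk1', H.cpp hk1', e2]

theorem e15 (H : HH Q Q' φ) {k : Q} (hk : φ k = 1) (Y Z : Q) :
    N' φ Y Z k ↔ N' φ Y Z (Z⁻¹ * ((Y⁻¹ * (k * Y)) * Z)) := by
  rw [H.cpp hk, H.cpp (H.cj1 hk Y)]

theorem e19 (H : HH Q Q' φ) {l : Q} (hl : φ l = 1) (Y Z : Q) :
    N' φ Y Z l ↔ N' φ Y Z (Z⁻¹ * (l * Z)) := by
  set l' := (Z * l) * Z⁻¹ with hl'
  have hl'1 : φ l' = 1 := H.cj2 hl Z
  set k := (Y * l') * Y⁻¹ with hk
  have hk1 : φ k = 1 := H.cj2 hl'1 Y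
  have e1 : Y⁻¹ * (k * Y) = l' := by rw [hk, rip', lip]
  have e2 : Z⁻¹ * (l' * Z) = l := by rw [hl', rip', lip]
  have h1 := H.e15 hk1 Y Z
  rw [e1, e2] at h1
  have h2 := H.e15 hk1 Y (Z * Z)
  rw [e1] at h2
  have e3 : (Z * Z)⁻¹ * (l' * (Z * Z)) = Z⁻¹ * (l * Z) := by
    rw [inv_mul_rev, lalt, ← ralt, ← conj_assoc, e2]
  rw [e3, H.ee hk1, H.ee (H.cj1 hl Z)] at h2
  rw [← h1, h2]

theorem dd (H : HH Q Q' φ) {k : Q} (hk : φ k = 1) (Y Z : Q) :
    C' φ Y Z k ↔ φ (Y * ((k * Z) * k)) = φ (Y * Z) := by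
  unfold C'
  rw [flex, ← m2, H.mulk hk]

theorem c_iff (H : HH Q Q' φ) {k : Q} (hk : φ k = 1) (Y Z : Q) :
    C' φ Y Z k ↔ N' φ Y Z k := by
  rw [H.bprime, H.cpp hk, ← H.e19 hk]

theorem step (H : HH Q Q' φ) {k : Q} (hk : φ k = 1) (Y Z : Q) :
    φ (Y * ((k * Z) * k)) = φ (Y * (k * Z)) := by
  have h1 : φ (Y * ((k * Z) * k)) = φ (Y * Z) ↔ N' φ Y Z k := by
    rw [← H.dd hk, H.c_iff hk]
  have h2 : φ (Y * (k * Z)) = φ (Y * Z) ↔ N' φ Y Z k := by
    rw [H.e19 hk Y Z]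
    unfold N'
    rw [lip']
  have a0 := H.half Y Z
  have a1 := H.half Y (k * Z)
  have a2 := H.half Y ((k * Z) * k)
  rw [H.kmul hk] at a1
  rw [H.mulk hk, H.kmul hk] at a2
  by_cases hN : N' φ Y Z k
  · rw [h1.2 hN, h2.2 hN]
  · have n1 : φ (Y * ((k * Z) * k)) ≠ φ (Y * Z) := fun h => hN (h1.1 h)
    have n2 : φ (Y * (k * Z)) ≠ φ (Y * Z) := fun h => hN (h2.1 h)
    rcases a0 with a0 | a0 <;> rcases a1 with a1 | a1 <;> rcases a2 with a2 | a2
    all_goals first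
      | exact a2.trans a1.symm
      | exact absurd (a2.trans a0.symm) n1
      | exact absurd (a1.trans a0.symm) n2

theorem main (H : HH Q Q' φ) {k : Q} (hk : φ k = 1) (Y Z : Q) :
    φ (Y * (Z * k)) = φ (Y * Z) := by
  have := H.step hk Y (k⁻¹ * Z)
  rwa [lip'] at this

theorem main' (H : HH Q Q' φ) {k : Q} (hk : φ k = 1) (Y Z : Q) :
    φ ((k * Y) * Z) = φ (Y * Z) := by
  rw [H.kyz hk]; exact H.main (H.inv_mem hk) Y Z

end HH

end Half

/-- A Moufang loop in the sense of the problem gives an `MLoop` with the same `*` and `1`. -/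
theorem exists_inv {Q : Type u} [Mul Q] [One Q] (h : IsMoufangLoop Q) :
    ∃ i : Q → Q, (∀ x z : Q, i x * (x * z) = z) ∧ (∀ x z : Q, x * (i x * z) = z) ∧
      (∀ x z : Q, (z * x) * i x = z) ∧ (∀ x z : Q, (z * i x) * x = z) := by
  have lc0 : ∀ x a b : Q, x * a = x * b → a = b := fun x a b hab =>
    (h.left_div x (x * b)).unique hab rfl
  choose i hi using fun x : Q => (h.left_div x 1).exists
  have l1 : ∀ x z : Q, i x * (x * z) = z := by
    intro x z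
    apply lc0 x
    rw [h.moufang, hi, h.one_mul]
  have l2 : ∀ x : Q, i x * x = 1 := by
    intro x
    have := l1 x 1
    rwa [h.mul_one] at this
  have l3 : ∀ x : Q, i (i x) = x := by
    intro x
    apply lc0 (i x)
    rw [hi, l2]
  have l4 : ∀ x z : Q, x * (i x * z) = z := by
    intro x z
    have := l1 (i x) z
    rwa [l3] at this
  have l5 : ∀ x z : Q, (z * x) * i x = z := by
    intro x z
    have := h.moufang x (i x * z) (i x)
    rw [hi, h.mul_one, l4] at this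
    exact this.symm
  refine ⟨i, l1, l4, l5, ?_⟩
  intro x z
  have := l5 (i x) z
  rwa [l3] at this

theorem kernel_normal {Q : Type u} {Q' : Type v} [Mul Q] [One Q] [Mul Q'] [One Q']
    (hQ : IsMoufangLoop Q) (hQ' : IsLoop Q') (φ : Q → Q') (hφ : IsHalfHom φ) :
    IsNormalSubloop (Ker φ) := by
  obtain ⟨i, l1, l2, l3, l4⟩ := exists_inv hQ
  let I : MLoop Q :=
    { inv := i
      one_mul' := hQ.one_mul
      mul_one' := hQ.mul_one
      lip := l1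
      lip' := l2
      rip := l3
      rip' := l4
      m1 := hQ.moufang }
  have H : HH Q Q' φ := ⟨hQ', hφ⟩
  have memK : ∀ a : Q, a ∈ Ker φ ↔ φ a = 1 := fun _ => Iff.rfl
  refine ⟨⟨?_, ?_, ?_, ?_⟩, ?_, ?_, ?_⟩
  · exact H.map_one
  · intro a ha b hb
    rw [memK] at *
    rw [H.kmul ha, hb]
  · intro a ha b hb x hx
    rw [memK] at *
    rw [← hb, ← hx, H.kmul ha]
  · intro a ha b hb y hy
    rw [memK] at *
    rw [← hb, ← hy, H.mulk ha]
  · intro x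
    ext z
    constructor
    · rintro ⟨k, hk, rfl⟩
      exact ⟨(x * k) * x⁻¹, H.cj2 hk x, (l4 x (x * k)).symm⟩
    · rintro ⟨k, hk, rfl⟩
      exact ⟨x⁻¹ * (k * x), H.cj1 hk x, (l2 x (k * x)).symm⟩
  · intro x y
    ext z
    constructor
    · rintro ⟨k, hk, rfl⟩
      refine ⟨(x * y)⁻¹ * (x * (y * k)), ?_, (l2 (x * y) _).symm⟩
      exact (H.kp_iff x y k).1 (H.main hk x y)
    · rintro ⟨k, hk, rfl⟩
      refine ⟨y⁻¹ * (x⁻¹ * ((x * y) * k)), ?_, ?_⟩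
      · have h1 : φ (x⁻¹ * ((x * y) * k)) = φ y := by
          rw [H.main hk]
          exact congrArg φ (l1 x y)
        apply H.ld (a := y)
        have h2 : y * (y⁻¹ * (x⁻¹ * ((x * y) * k))) = x⁻¹ * ((x * y) * k) := l2 y _
        rw [h2, h1]
      · have h2 : y * (y⁻¹ * (x⁻¹ * ((x * y) * k))) = x⁻¹ * ((x * y) * k) := l2 y _
        rw [h2]
        exact (l2 x _).symm
  · intro x y
    ext z
    constructor
    · rintro ⟨k, hk, rfl⟩
      refine ⟨((k * x) * y) * (x * y)⁻¹, ?_, (l4 (x * y) _).symm⟩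
      apply H.rd (b := x * y)
      have h2 : ((k * x) * y) * (x * y)⁻¹ * (x * y) = (k * x) * y := l4 (x * y) _
      rw [h2]
      exact H.main' hk x y
    · rintro ⟨k, hk, rfl⟩
      refine ⟨((k * (x * y)) * y⁻¹) * x⁻¹, ?_, ?_⟩
      · apply H.rd (b := x)
        have h2 : ((k * (x * y)) * y⁻¹) * x⁻¹ * x = (k * (x * y)) * y⁻¹ := l4 x _
        rw [h2, H.main' hk]
        exact congrArg φ (l3 y x)
      · have h2 : ((k * (x * y)) * y⁻¹) * x⁻¹ * x = (k * (x * y)) * y⁻¹ := l4 x _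
        rw [h2]
        exact (l4 y _).symm

end Pool.Agent.R325.Moufang
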