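import Mathlib

/-!
Loops, Moufang loops, half-homomorphisms and normal subloops, as in problem MP_d39372_al.
-/

namespace Pool.Agent.R325.Moufang

universe u v

/-- A loop: `1` is a two-sided identity and all equations `a x = b`, `y a = b` are uniquely
solvable. -/
structure IsLoop (Q : Type u) [Mul Q] [One Q] : Prop where
  one_mul : ∀ x : Q, 1 * x = x
  mul_one : ∀ x : Q, x * 1 = x
  left_div : ∀ a b : Q, ∃! x : Q, a * x = b
  right_div : ∀ a b : Q, ∃! y : Q, y * a = b

/-- A Moufang loop: a loop with the identity `x(y(xz)) = ((xy)x)z`. -/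
structure IsMoufangLoop (Q : Type u) [Mul Q] [One Q] : Prop extends IsLoop Q where
  moufang : ∀ x y z : Q, x * (y * (x * z)) = ((x * y) * x) * z

/-- A half-homomorphism: `φ (a b)` is `φ a φ b` or `φ b φ a`, for all `a`, `b`. -/
def IsHalfHom {Q : Type u} {Q' : Type v} [Mul Q] [Mul Q'] (φ : Q → Q') : Prop :=
  ∀ a b : Q, φ (a * b) = φ a * φ b ∨ φ (a * b) = φ b * φ a

/-- The kernel of a map of loops: the preimage of the identity. -/
def Ker {Q : Type u} {Q' : Type v} [One Q'] (φ : Q → Q') : Set Q := {a : Q | φ a = 1}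

/-- A subloop: contains `1`, closed under multiplication and under both divisions. -/
structure IsSubloop {Q : Type u} [Mul Q] [One Q] (K : Set Q) : Prop where
  one_mem : (1 : Q) ∈ K
  mul_mem : ∀ a ∈ K, ∀ b ∈ K, a * b ∈ K
  left_div_mem : ∀ a ∈ K, ∀ b ∈ K, ∀ x : Q, a * x = b → x ∈ K
  right_div_mem : ∀ a ∈ K, ∀ b ∈ K, ∀ y : Q, y * a = b → y ∈ K

/-- A normal subloop: a subloop `K` with `xK = Kx`, `x(yK) = (xy)K` and `(Kx)y = K(xy)` for all
`x`, `y`. -/
structure IsNormalSubloop {Q : Type u} [Mul Q] [One Q] (K : Set Q) : Prop extends IsSubloop K where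
  coset_comm : ∀ x : Q, {z : Q | ∃ k ∈ K, z = x * k} = {z : Q | ∃ k ∈ K, z = k * x}
  left_coset : ∀ x y : Q, {z : Q | ∃ k ∈ K, z = x * (y * k)} = {z : Q | ∃ k ∈ K, z = (x * y) * k}
  right_coset : ∀ x y : Q, {z : Q | ∃ k ∈ K, z = (k * x) * y} = {z : Q | ∃ k ∈ K, z = k * (x * y)}

end Pool.Agent.R325.Moufang
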